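import Mathlib
import Pool.Agent.N788.PP.Poly
import Pool.Agent.N318.LS.J

/-! A corner of a progression on a nilmanifold of unitriangular matrices is determined by the other
points. -/

namespace Pool.Agent.N788.NL

open Finset Polynomial Filter Topology
open Pool.Agent.N318.LS

lemma ulim {X : Type*} [TopologicalSpace X] {K : Set X} (hK : IsCompact K) (u : ℕ → X)
    (hu : ∀ k, u k ∈ K) : ∃ x ∈ K, Tendsto u (hyperfilter ℕ : Filter ℕ) (𝓝 x) := by
  obtain ⟨x, hx, h⟩ := hK.ultrafilter_le_nhds' ((hyperfilter ℕ).map u) (by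
    rw [Ultrafilter.mem_map]
    exact Filter.univ_mem' hu)
  exact ⟨x, hx, h⟩

lemma uni_left {m : ℕ} {A X B : Matrix (Fin m) (Fin m) ℝ} (hA : Uni A) (hB : Uni B)
    (h : A * X = B) : Uni X := by
  have key : ∀ t : ℕ, ∀ i : Fin m, m - i.1 ≤ t → ∀ j : Fin m, j ≤ i → X i j = B i j := by
    intro t
    induction t with
    | zero => intro i hi; exact absurd i.2 (by omega)
    | succ t ih =>
      intro i hi j hj
      have h1 : (A * X) i j = X i j := by
        rw [Matrix.mul_apply, sum_eq_single i, hA.1, one_mul]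
        · intro l _ hl
          rcases lt_or_gt_of_ne hl with h2 | h2
          · rw [hA.2 i l h2, zero_mul]
          · rw [ih l (by have := Fin.lt_def.1 h2; omega) j (hj.trans h2.le),
              hB.2 l j (lt_of_le_of_lt hj h2), mul_zero]
        · intro h2
          exact absurd (mem_univ _) h2
      rw [← h1, h]
  constructor
  · intro i
    rw [key _ i le_rfl i le_rfl, hB.1]
  · intro i j hij
    rw [key _ i le_rfl j hij.le, hB.2 i j hij]

lemma deg_mul {m a b : ℕ} {A B : Matrix (Fin m) (Fin m) ℝ[X]} (hA : ∀ i j, (A i j).natDegree ≤ a)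
    (hB : ∀ i j, (B i j).natDegree ≤ b) : ∀ i j, ((A * B) i j).natDegree ≤ a + b := by
  intro i j
  rw [Matrix.mul_apply]
  exact natDegree_sum_le_of_forall_le _ _ (fun l _ => natDegree_mul_le.trans
    (add_le_add (hA i l) (hB l j)))

lemma deg_pow {m a : ℕ} {A : Matrix (Fin m) (Fin m) ℝ[X]} (hA : ∀ i j, (A i j).natDegree ≤ a)
    (k : ℕ) : ∀ i j, ((A ^ k) i j).natDegree ≤ k * a := by
  induction k with
  | zero =>
    intro i j
    rw [pow_zero, Matrix.one_apply]
    split_ifs <;> simp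
  | succ k ih =>
    intro i j
    rw [pow_succ, add_mul, one_mul]
    exact deg_mul ih hA i j

lemma poly_inv {m N : ℕ} (B : Matrix (Fin m) (Fin m) ℝ[X]) (hB : Uni B)
    (hd : ∀ i j, (B i j).natDegree ≤ N) :
    ∃ Y : Matrix (Fin m) (Fin m) ℝ[X], Y * B = 1 ∧ ∀ i j, (Y i j).natDegree ≤ m * N := by
  have hnil : (B - 1) ^ m = 0 := by
    have h1 := Matrix.aeval_self_charpoly B
    have h2 : B.charpoly = (X - C 1) ^ m := by
      rw [Matrix.charpoly_of_upperTriangular B (fun i j hij => hB.2 i j hij)]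
      rw [prod_congr rfl (fun i _ => by rw [hB.1 i])]
      rw [prod_const, card_univ, Fintype.card_fin]
    rw [h2, map_pow, map_sub, aeval_X, aeval_C, map_one] at h1
    exact h1
  refine ⟨∑ k ∈ range m, (1 - B) ^ k, ?_, ?_⟩
  · have h1 := geom_sum_mul_neg (1 - B) m
    rw [sub_sub_cancel] at h1
    rw [h1, ← neg_sub B 1, neg_pow, hnil, mul_zero, sub_zero]
  · intro i j
    rw [Matrix.sum_apply]
    refine natDegree_sum_le_of_forall_le _ _ fun k hk => ?_
    have hd1 : ∀ i j, ((1 - B) i j).natDegree ≤ N := by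
      intro i j
      rw [Matrix.sub_apply]
      refine (natDegree_sub_le _ _).trans (max_le ?_ (hd i j))
      rw [Matrix.one_apply]
      split_ifs <;> simp
    exact (deg_pow hd1 k i j).trans (Nat.mul_le_mul_right _ (mem_range.1 hk).le)

/-- polynomial form of `RM` -/
noncomputable def BP {m : ℕ} (N : ℕ) (c : Fin m → Fin m → ℕ → ℝ) : Matrix (Fin m) (Fin m) ℝ[X] :=
  fun i j => if i = j then 1 else if i < j then ∑ l ∈ range (N + 1), C (c i j l) * bin l else 0

lemma BP_uni {m : ℕ} (N : ℕ) (c : Fin m → Fin m → ℕ → ℝ) : Uni (BP N c) := by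
  constructor
  · intro i
    exact if_pos rfl
  · intro i j hij
    unfold BP
    rw [if_neg (ne_of_gt hij), if_neg (not_lt_of_gt hij)]

lemma BP_deg {m : ℕ} (N : ℕ) (c : Fin m → Fin m → ℕ → ℝ) (i j : Fin m) :
    (BP N c i j).natDegree ≤ N := by
  unfold BP
  split_ifs
  · simp
  · refine natDegree_sum_le_of_forall_le _ _ fun l hl => ?_
    rw [mem_range] at hl
    exact (natDegree_C_mul_le _ _).trans ((bin_deg l).trans (by omega))
  · simp

lemma ev_BP {m : ℕ} (N : ℕ) (c : Fin m → Fin m → ℕ → ℝ) (t : ℕ) : ev (BP N c) t = RM N c t := by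
  ext i j
  unfold ev BP RM
  split_ifs
  · simp
  · rw [eval_finsetSum]
    refine sum_congr rfl fun l _ => ?_
    rw [eval_mul, eval_C, bin_eval]
  · simp

lemma ev_mul {m : ℕ} (A B : Matrix (Fin m) (Fin m) ℝ[X]) (t : ℕ) : ev (A * B) t = ev A t * ev B t := by
  ext i j
  unfold ev
  rw [Matrix.mul_apply, Matrix.mul_apply, eval_finsetSum]
  refine sum_congr rfl fun l _ => ?_
  rw [eval_mul]

lemma ev_one {m : ℕ} (t : ℕ) : ev (1 : Matrix (Fin m) (Fin m) ℝ[X]) t = 1 := by
  ext i j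
  unfold ev
  rw [Matrix.one_apply, Matrix.one_apply]
  split_ifs <;> simp

lemma corner_int {s : ℕ} (P : ℝ[X]) (hP : P.natDegree ≤ s)
    (h : ∀ j : ℕ, 1 ≤ j → j ≤ s + 1 → ∃ z : ℤ, P.eval (j : ℝ) = z) : ∃ z : ℤ, P.eval 0 = z := by
  have h1 := Pool.Agent.N788.PP.cube (Finset.univ : Finset (Fin (s + 1))) (fun _ => 1) P
    (by rw [card_univ, Fintype.card_fin]; omega) 0
  rw [← Finset.add_sum_erase _ _ (Finset.empty_mem_powerset _)] at h1
  choose! z hz using h
  have h2 : ∀ T ∈ (Finset.univ : Finset (Fin (s + 1))).powerset.erase ∅,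
      (-1 : ℝ) ^ T.card * P.eval (0 + ∑ _u ∈ T, (1 : ℝ)) = (((-1) ^ T.card * z T.card : ℤ) : ℝ) := by
    intro T hT
    have h3 : 1 ≤ T.card := Finset.card_pos.2 (nonempty_iff_ne_empty.2 (ne_of_mem_erase hT))
    have h4 : T.card ≤ s + 1 := by
      have := card_le_univ T
      rwa [Fintype.card_fin] at this
    rw [Finset.sum_const, nsmul_eq_mul, mul_one, zero_add, hz _ h3 h4]
    push_cast
    rfl
  rw [sum_congr rfl h2] at h1
  refine ⟨- ∑ T ∈ (Finset.univ : Finset (Fin (s + 1))).powerset.erase ∅, (-1) ^ T.card * z T.card, ?_⟩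
  rw [card_empty, pow_zero, one_mul, sum_empty, add_zero] at h1
  rw [Int.cast_neg, Int.cast_sum]
  linarith

lemma RM_cont {m : ℕ} (N t : ℕ) : Continuous (fun c : Fin m → Fin m → ℕ → ℝ => RM N c t) := by
  refine continuous_pi fun i => continuous_pi fun j => ?_
  unfold RM
  split_ifs
  · exact continuous_const
  · refine continuous_finset_sum _ fun l _ => ?_
    refine Continuous.mul ?_ continuous_const
    exact (continuous_apply l).comp ((continuous_apply j).comp (continuous_apply i))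
  · exact continuous_const

lemma c_compact (m : ℕ) : IsCompact {c : Fin m → Fin m → ℕ → ℝ | ∀ i j l, 0 ≤ c i j l ∧ c i j l ≤ 1} := by
  have h1 : IsCompact (Set.univ.pi fun _ : Fin m => Set.univ.pi fun _ : Fin m =>
      Set.univ.pi fun _ : ℕ => Set.Icc (0 : ℝ) 1) :=
    isCompact_univ_pi fun _ => isCompact_univ_pi fun _ => isCompact_univ_pi fun _ => isCompact_Icc
  have h2 : {c : Fin m → Fin m → ℕ → ℝ | ∀ i j l, 0 ≤ c i j l ∧ c i j l ≤ 1} =
      (Set.univ.pi fun _ : Fin m => Set.univ.pi fun _ : Fin m =>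
      Set.univ.pi fun _ : ℕ => Set.Icc (0 : ℝ) 1) := by
    ext c
    constructor
    · intro h i _ j _ l _
      exact h i j l
    · intro h i j l
      exact h i (Set.mem_univ i) j (Set.mem_univ j) l (Set.mem_univ l)
  rw [h2]
  exact h1

lemma int_lim {m : ℕ} (s : ℕ → Matrix (Fin m) (Fin m) ℤ) (r : Matrix (Fin m) (Fin m) ℝ)
    (hs : ∀ k, Uni (s k)) (hl : Tendsto (fun k => rl (s k)) (hyperfilter ℕ : Filter ℕ) (𝓝 r)) :
    ∃ S : Matrix (Fin m) (Fin m) ℤ, Uni S ∧ rl S = r := by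
  have h1 : ∀ i j, Tendsto (fun k => rl (s k) i j) (hyperfilter ℕ : Filter ℕ) (𝓝 (r i j)) := by
    intro i j
    exact ((continuous_apply_apply (ρ := fun _ _ => ℝ) i j).tendsto r).comp hl
  have h2 : ∀ i j, ∃ z : ℤ, (z : ℝ) = r i j := by
    intro i j
    exact Int.isClosedEmbedding_coe_real.isClosed_range.mem_of_tendsto (h1 i j)
      (Eventually.of_forall fun k => ⟨s k i j, rfl⟩)
  choose z hz using h2
  have h3 : rl (fun i j => z i j) = r := by
    ext i j
    exact hz i j
  refine ⟨fun i j => z i j, ?_, h3⟩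
  apply uni_of_rl
  rw [h3]
  constructor
  · intro i
    refine tendsto_nhds_unique (h1 i i) ?_
    refine tendsto_const_nhds.congr fun k => ?_
    exact ((rl_uni (hs k)).1 i).symm
  · intro i j hij
    refine tendsto_nhds_unique (h1 i j) ?_
    refine tendsto_const_nhds.congr fun k => ?_
    exact ((rl_uni (hs k)).2 i j hij).symm

/-- one side of the limit -/
lemma side {m D : ℕ} (Q : ℕ → Matrix (Fin m) (Fin m) ℝ[X]) (hQ : ∀ M, Uni (Q M))
    (hd : ∀ M i j, (Q M i j).natDegree ≤ D) (H : ℕ → ℕ → Matrix (Fin m) (Fin m) ℤ)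
    (hH : ∀ M t, Uni (H M t)) (hb : ∀ M t i j, |(ev (Q M) t * rl (H M t)) i j| ≤ 1) :
    ∃ (c : ℕ → Fin m → Fin m → ℕ → ℝ) (cs : Fin m → Fin m → ℕ → ℝ) (G : ℕ → ℕ → Matrix (Fin m) (Fin m) ℤ)
      (r : ℕ → Matrix (Fin m) (Fin m) ℝ) (S : ℕ → Matrix (Fin m) (Fin m) ℤ),
      (∀ i j l, 0 ≤ cs i j l ∧ cs i j l ≤ 1) ∧ Tendsto c (hyperfilter ℕ : Filter ℕ) (𝓝 cs) ∧
      (∀ M t, Uni (G M t)) ∧ (∀ M t, ev (Q M) t * rl (G M t) = RM (D + m * D) (c M) t) ∧
      (∀ t, Tendsto (fun M => ev (Q M) t * rl (H M t)) (hyperfilter ℕ : Filter ℕ) (𝓝 (r t))) ∧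
      (∀ t, Uni (S t)) ∧ ∀ t, RM (D + m * D) cs t * rl (S t) = r t := by
  choose c hc01 hcr using fun M => orbit_red0 (Q M) (hQ M) (hd M)
  choose hU G hG hGe using hcr
  obtain ⟨cs, hcs, lc⟩ := ulim (c_compact m) c hc01
  choose r hr lr using fun t => ulim (box_compact m 1) (fun M => ev (Q M) t * rl (H M t))
    (fun M => hb M t)
  have hGe' : ∀ M t, ev (Q M) t * rl (G M t) = RM (D + m * D) (c M) t := fun M t => hGe M t
  have hα : ∀ M t, RM (D + m * D) (c M) t * rl (Matrix.adjugate (G M t) * H M t) =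
      ev (Q M) t * rl (H M t) := by
    intro M t
    rw [← hGe', mul_assoc, ← rl_mul, ← mul_assoc, Matrix.mul_adjugate, uni_det (hG M t), one_smul,
      one_mul]
  have hαu : ∀ M t, Uni (Matrix.adjugate (G M t) * H M t) := by
    intro M t
    apply uni_of_rl
    exact uni_left (RM_uni _ _ _) ((hU M t).mul (rl_uni (hH M t))) (hα M t)
  have hadj : ∀ (B X : Matrix (Fin m) (Fin m) ℝ), Uni B → Matrix.adjugate B * (B * X) = X := by
    intro B X hB
    rw [← mul_assoc, Matrix.adjugate_mul, uni_det hB, one_smul, one_mul]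
  have lα : ∀ t, Tendsto (fun M => rl (Matrix.adjugate (G M t) * H M t)) (hyperfilter ℕ : Filter ℕ)
      (𝓝 (Matrix.adjugate (RM (D + m * D) cs t) * r t)) := by
    intro t
    have h1 : (fun M => rl (Matrix.adjugate (G M t) * H M t)) = fun M =>
        Matrix.adjugate (RM (D + m * D) (c M) t) * (ev (Q M) t * rl (H M t)) := by
      funext M
      rw [← hα M t, hadj _ _ (RM_uni _ _ _)]
    rw [h1]
    have h2 : Tendsto (fun M => RM (D + m * D) (c M) t) (hyperfilter ℕ : Filter ℕ)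
        (𝓝 (RM (D + m * D) cs t)) := ((RM_cont (D + m * D) t).tendsto cs).comp lc
    have h3 : Tendsto (fun M => Matrix.adjugate (RM (D + m * D) (c M) t)) (hyperfilter ℕ : Filter ℕ)
        (𝓝 (Matrix.adjugate (RM (D + m * D) cs t))) :=
      ((continuous_id.matrix_adjugate).tendsto _).comp h2
    exact (((continuous_fst.matrix_mul continuous_snd).tendsto
      (Matrix.adjugate (RM (D + m * D) cs t), r t)).comp (h3.prodMk_nhds (lr t)))
  choose S hS hSt using fun t => int_lim (fun M => Matrix.adjugate (G M t) * H M t) _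
    (fun M => hαu M t) (lα t)
  refine ⟨c, cs, G, r, S, hcs, lc, hG, hGe', lr, hS, fun t => ?_⟩
  rw [hSt, ← mul_assoc, Matrix.mul_adjugate, uni_det (RM_uni _ _ _), one_smul, one_mul]

end Pool.Agent.N788.NL
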