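import Mathlib
import Pool.Agent.N788.NL.CL

/-! A corner of a progression on a nilmanifold of unitriangular matrices is determined by the other
points: conclusion. -/

namespace Pool.Agent.N788.NL

open Finset Polynomial Filter Topology
open Pool.Agent.N318.LS

/-- the length of the progression -/
def KK (m D : ℕ) : ℕ := m * (D + m * D) + (D + m * D) + 1

lemma limit_step {m N : ℕ} {cs cs' : Fin m → Fin m → ℕ → ℝ} {r r' : ℕ → Matrix (Fin m) (Fin m) ℝ}
    {S S' : ℕ → Matrix (Fin m) (Fin m) ℤ} (hS' : ∀ t, Uni (S' t))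
    (e1 : ∀ t, RM N cs t * rl (S t) = r t) (e2 : ∀ t, RM N cs' t * rl (S' t) = r' t)
    (hr : ∀ t : ℕ, 1 ≤ t → t ≤ m * N + N + 1 → r t = r' t) :
    ∃ Z : Matrix (Fin m) (Fin m) ℤ, Uni Z ∧ RM N cs 0 * rl Z = RM N cs' 0 := by
  obtain ⟨Y, hY, hYd⟩ := poly_inv (BP N cs) (BP_uni N cs) (BP_deg N cs)
  have hY' : BP N cs * Y = 1 := mul_eq_one_comm.1 hY
  have f1 : ∀ t, ev Y t * RM N cs t = 1 := by
    intro t
    rw [← ev_BP, ← ev_mul, hY, ev_one]
  have f2 : ∀ t, RM N cs t * ev Y t = 1 := by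
    intro t
    rw [← ev_BP, ← ev_mul, hY', ev_one]
  have hPd : ∀ i j, ((Y * BP N cs') i j).natDegree ≤ m * N + N := deg_mul hYd (BP_deg N cs')
  have hP : ∀ t : ℕ, 1 ≤ t → t ≤ m * N + N + 1 →
      ev (Y * BP N cs') t = rl (S t * Matrix.adjugate (S' t)) := by
    intro t h1 h2
    have h3 : ev (Y * BP N cs') t * rl (S' t) = rl (S t) := by
      rw [ev_mul, ev_BP, mul_assoc, e2, ← hr t h1 h2, ← e1, ← mul_assoc, f1, one_mul]
    rw [rl_mul, ← h3, mul_assoc, ← rl_mul, Matrix.mul_adjugate, uni_det (hS' t), one_smul, rl_one,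
      mul_one]
  have hZ : ∀ i j, ∃ z : ℤ, ((Y * BP N cs') i j).eval 0 = z := by
    intro i j
    refine corner_int _ (hPd i j) fun t h1 h2 => ?_
    refine ⟨(S t * Matrix.adjugate (S' t)) i j, ?_⟩
    exact congrFun (congrFun (hP t h1 h2) i) j
  choose Z hZ using hZ
  have hZe : rl (fun i j => Z i j) = ev (Y * BP N cs') 0 := by
    ext i j
    unfold ev rl
    rw [Matrix.map_apply, Nat.cast_zero, hZ]
  have h4 : RM N cs 0 * rl (fun i j => Z i j) = RM N cs' 0 := by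
    rw [hZe, ev_mul, ev_BP, ← mul_assoc, f2, one_mul]
  exact ⟨fun i j => Z i j, uni_of_rl (uni_left (RM_uni _ _ _) (RM_uni _ _ _) h4), h4⟩

lemma RM_zero {m N : ℕ} {c : Fin m → Fin m → ℕ → ℝ} (hc : ∀ i j l, 0 ≤ c i j l ∧ c i j l ≤ 1)
    (i j : Fin m) : |RM N c 0 i j| ≤ 1 := by
  unfold RM
  split_ifs
  · simp
  · rw [sum_eq_single 0]
    · rw [Nat.choose_self, Nat.cast_one, mul_one, abs_le]
      have := hc i j 0
      constructor <;> linarith
    · intro l _ hl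
      rw [Nat.choose_eq_zero_of_lt (by omega), Nat.cast_zero, mul_zero]
    · intro h
      simp at h
  · simp

theorem cl (m D : ℕ) (η : ℝ) (hη : 0 < η) : ∃ M : ℕ, ∀ Q Q' : Matrix (Fin m) (Fin m) ℝ[X],
    Uni Q → Uni Q' → (∀ i j, (Q i j).natDegree ≤ D) → (∀ i j, (Q' i j).natDegree ≤ D) →
    ∀ H H' : ℕ → Matrix (Fin m) (Fin m) ℤ, (∀ t, Uni (H t)) → (∀ t, Uni (H' t)) →
    (∀ t i j, |(ev Q t * rl (H t)) i j| ≤ 1) → (∀ t i j, |(ev Q' t * rl (H' t)) i j| ≤ 1) →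
    (∀ t : ℕ, 1 ≤ t → t ≤ KK m D → ∀ i j,
      |(ev Q t * rl (H t)) i j - (ev Q' t * rl (H' t)) i j| ≤ 1 / ((M : ℝ) + 1)) →
    ∃ g g' : Matrix (Fin m) (Fin m) ℤ, Uni g ∧ Uni g' ∧ (∀ i j, |(ev Q 0 * rl g) i j| ≤ 2) ∧
      ∀ i j, |(ev Q 0 * rl g) i j - (ev Q' 0 * rl g') i j| ≤ η := by
  by_contra hcon
  push Not at hcon
  choose Q Q' hQ hQ' hd hd' H H' hH hH' hb hb' hc hbad using hcon
  obtain ⟨c, cs, G, r, S, hcs, lc, hG, hGe, lr, hS, hSr⟩ := side Q hQ hd H hH hb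
  obtain ⟨c', cs', G', r', S', hcs', lc', hG', hGe', lr', hS', hSr'⟩ := side Q' hQ' hd' H' hH' hb'
  have hrr : ∀ t : ℕ, 1 ≤ t → t ≤ m * (D + m * D) + (D + m * D) + 1 → r t = r' t := by
    intro t h1 h2
    ext i j
    have n1 : Tendsto (fun M => (ev (Q M) t * rl (H M t)) i j - (ev (Q' M) t * rl (H' M t)) i j)
        (hyperfilter ℕ : Filter ℕ) (𝓝 (r t i j - r' t i j)) :=
      (((continuous_apply_apply (ρ := fun _ _ => ℝ) i j).tendsto _).comp (lr t)).sub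
        (((continuous_apply_apply (ρ := fun _ _ => ℝ) i j).tendsto _).comp (lr' t))
    have n2 : Tendsto (fun M : ℕ => 1 / ((M : ℝ) + 1)) (hyperfilter ℕ : Filter ℕ) (𝓝 0) :=
      (tendsto_one_div_add_atTop_nhds_zero_nat (𝕜 := ℝ)).mono_left Nat.hyperfilter_le_atTop
    have n3 : Tendsto (fun M => (ev (Q M) t * rl (H M t)) i j - (ev (Q' M) t * rl (H' M t)) i j)
        (hyperfilter ℕ : Filter ℕ) (𝓝 0) := by
      refine squeeze_zero_norm (fun M => ?_) n2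
      rw [Real.norm_eq_abs]
      exact hc M t h1 h2 i j
    have n4 := tendsto_nhds_unique n1 n3
    linarith
  obtain ⟨Z, hZ, hZe⟩ := limit_step hS' hSr hSr' hrr
  have h1 : Tendsto (fun M => RM (D + m * D) (c M) 0 * rl Z) (hyperfilter ℕ : Filter ℕ)
      (𝓝 (RM (D + m * D) cs' 0)) := by
    rw [← hZe]
    have h2 : Tendsto (fun M => RM (D + m * D) (c M) 0) (hyperfilter ℕ : Filter ℕ)
        (𝓝 (RM (D + m * D) cs 0)) := ((RM_cont (D + m * D) 0).tendsto cs).comp lc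
    exact (((continuous_id.matrix_mul continuous_const).tendsto _).comp h2)
  have h2 : Tendsto (fun M => RM (D + m * D) (c' M) 0) (hyperfilter ℕ : Filter ℕ)
      (𝓝 (RM (D + m * D) cs' 0)) := ((RM_cont (D + m * D) 0).tendsto cs').comp lc'
  have k1 : ∀ i j, ∀ᶠ M in (hyperfilter ℕ : Filter ℕ), |(RM (D + m * D) (c M) 0 * rl Z) i j| < 2 := by
    intro i j
    have n1 : Tendsto (fun M => |(RM (D + m * D) (c M) 0 * rl Z) i j|) (hyperfilter ℕ : Filter ℕ)
        (𝓝 |RM (D + m * D) cs' 0 i j|) :=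
      (((continuous_apply_apply (ρ := fun _ _ => ℝ) i j).tendsto _).comp h1).abs
    exact n1.eventually_lt_const (lt_of_le_of_lt (RM_zero hcs' i j) (by norm_num))
  have k2 : ∀ i j, ∀ᶠ M in (hyperfilter ℕ : Filter ℕ),
      |(RM (D + m * D) (c M) 0 * rl Z) i j - RM (D + m * D) (c' M) 0 i j| < η := by
    intro i j
    have n1 : Tendsto (fun M => |(RM (D + m * D) (c M) 0 * rl Z) i j - RM (D + m * D) (c' M) 0 i j|)
        (hyperfilter ℕ : Filter ℕ) (𝓝 |RM (D + m * D) cs' 0 i j - RM (D + m * D) cs' 0 i j|) :=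
      ((((continuous_apply_apply (ρ := fun _ _ => ℝ) i j).tendsto _).comp h1).sub
        (((continuous_apply_apply (ρ := fun _ _ => ℝ) i j).tendsto _).comp h2)).abs
    rw [sub_self, abs_zero] at n1
    exact n1.eventually_lt_const hη
  have k3 : ∀ᶠ M in (hyperfilter ℕ : Filter ℕ), ∀ i j,
      |(RM (D + m * D) (c M) 0 * rl Z) i j| < 2 ∧
      |(RM (D + m * D) (c M) 0 * rl Z) i j - RM (D + m * D) (c' M) 0 i j| < η :=
    eventually_all.2 fun i => eventually_all.2 fun j => (k1 i j).and (k2 i j)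
  obtain ⟨M, hM⟩ := k3.exists
  have e3 : ev (Q M) 0 * rl (G M 0 * Z) = RM (D + m * D) (c M) 0 * rl Z := by
    rw [rl_mul, ← mul_assoc, hGe]
  obtain ⟨i, j, hij⟩ := hbad M (G M 0 * Z) (G' M 0) ((hG M 0).mul hZ) (hG' M 0)
    (fun i j => by rw [e3]; exact (hM i j).1.le)
  rw [e3, hGe'] at hij
  exact absurd (hM i j).2 (not_lt.2 hij.le)

end Pool.Agent.N788.NL
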