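import Mathlib
import Pool.Agent.N788.PP.Mu

/-! Functions determined by the other points of progressions. -/

namespace Pool.Agent.N788.NL

open Finset Pool.Agent.N675 Pool.Agent.N675.FS Pool.Agent.N675.RL Pool.Agent.N788.PP

/-- `Φ n` is determined up to `ε` by the colours of `n + h, ..., n + K h` -/
def Det (K : ℕ) (Col : Type) (ε : ℝ) (Φ : ℤ → ℂ) : Prop :=
  ∃ κ : ℤ → Col, ∀ n n' h h' : ℤ, 1 ≤ n → 1 ≤ n' → 1 ≤ h → 1 ≤ h' →
    (∀ j : ℕ, 1 ≤ j → j ≤ K → κ (n + j * h) = κ (n' + j * h')) → ‖Φ n - Φ n'‖ ≤ ε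

/-- the form `n + (j + 1) h` -/
def pj (K : ℕ) (j : Fin K) : Fin (1 + 1) → ℤ := Fin.cons 1 (fun _ => ((j : ℕ) : ℤ) + 1)

lemma ip_pj (K : ℕ) (j : Fin K) (n : ℤ) (m : Fin 1 → ℤ) :
    ip (pj K j) (Fin.cons n m : Fin (1 + 1) → ℤ) = n + (((j : ℕ) + 1 : ℕ) : ℤ) * m 0 := by
  unfold ip pj
  rw [Fin.sum_univ_succ]
  simp

theorem lam_det {k : ℕ} (a b : Fin k → ℤ) (ha : ∀ i, a i ≠ 0) (E : Finset (Fin k))
    (hE : Odd E.card ∨ (E.card = 2 ∧ ∃ i ∈ E, ∃ j ∈ E, a i * b j ≠ a j * b i)) (K L R : ℕ) (ε : ℝ)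
    (hε : 0 < ε) :
    ∃ C : ℝ, ∀ J : ℕ, ∃ N₀ : ℕ, ∀ N : ℕ, N₀ ≤ N →
      ∑ i ∈ excS (fun x => ∃ Φ : ℤ → ℂ, (∀ n, ‖Φ n‖ ≤ 1) ∧ Det K (Fin L) (ε / 2) Φ ∧
        ε * x < ‖∑ n ∈ Icc (1 : ℤ) x, ((∏ i ∈ E, lamA (a i * n + b i) : ℝ) : ℂ) * Φ n‖) R J N,
        1 / (i : ℝ) ≤ C := by
  classical
  set φ : Fin k → Fin (1 + 1) → ℤ := fun i => Fin.cons (a i) (fun _ => 0) with hφ
  have hφ0 : ∀ i, φ i 0 = a i := fun i => by rw [hφ]; exact Fin.cons_zero _ _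
  have hφs : ∀ i u, φ i (Fin.succ u) = 0 := fun i u => by rw [hφ]; exact Fin.cons_succ _ _ _
  have hpar : ∀ i i' : Fin k, ∀ v w, φ i v * φ i' w = φ i w * φ i' v := by
    intro i i' v w
    refine Fin.cases ?_ (fun v => ?_) v <;> refine Fin.cases ?_ (fun w => ?_) w
    · ring
    · rw [hφs i w, hφs i' w]; ring
    · rw [hφs i v, hφs i' v]; ring
    · rw [hφs i v, hφs i w]; ring
  have hcl : ∀ i₀, cl φ E i₀ = E := by
    intro i₀
    unfold cl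
    rw [Finset.filter_true_of_mem]
    intro i _ v w
    exact hpar i i₀ v w
  have hϕ : ∀ (i₀ : Fin k) (j : Fin K), ∃ v w, pj K j v * φ i₀ w ≠ pj K j w * φ i₀ v := by
    intro i₀ j
    refine ⟨Fin.succ 0, 0, ?_⟩
    rw [hφ0, hφs, mul_zero]
    unfold pj
    rw [Fin.cons_succ]
    exact mul_ne_zero (by omega) (ha i₀)
  have hG : GoodL (fun j : Fin 0 => (Fin.elim0 j : Fin (1 + 1) → ℤ)) (pj K) φ b E := by
    rcases hE with h | ⟨h, i, hi, j, hj, hij⟩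
    · obtain ⟨i₀, hi₀⟩ : E.Nonempty := by
        rw [Finset.nonempty_iff_ne_empty]
        rintro rfl
        simp at h
      exact ⟨i₀, hi₀, by rw [hφ0]; exact ha i₀, fun j => j.elim0, hϕ i₀,
        Or.inl (by rw [hcl]; exact h)⟩
    · refine ⟨j, hj, by rw [hφ0]; exact ha j, fun j => j.elim0, hϕ j, Or.inr ⟨by rw [hcl]; exact h,
        i, by rw [hcl]; exact hi, 0, ?_⟩⟩
      rw [hφ0, hφ0]
      exact hij
  set ε' : ℝ := ε / (2 * ((Fintype.card (Fin K → Fin L) : ℝ) + 1)) with hε'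
  have hε'0 : 0 < ε' := by positivity
  obtain ⟨C, hC⟩ := lam_fl (fun j : Fin 0 => (Fin.elim0 j : Fin (1 + 1) → ℤ)) (fun j => Fin.elim0 j)
    (pj K) φ b (fun j => j.elim0) (fun i h => ha i (by rw [← hφ0 i, h]; rfl))
    (fun i => i.elim0) E hG R ε' hε'0
  refine ⟨C, fun J => ?_⟩
  obtain ⟨N₀, hN₀⟩ := hC J
  refine ⟨max N₀ 1, fun N hN => (Finset.sum_le_sum_of_subset_of_nonneg ?_
    fun _ _ _ => by positivity).trans (hN₀ N (le_trans (le_max_left _ _) hN))⟩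
  have hN1 : 1 ≤ N := le_trans (le_max_right _ _) hN
  intro i hi
  unfold excS at hi
  unfold excL
  rw [Finset.mem_filter] at hi ⊢
  obtain ⟨hiJ, x, hx, Φ, hΦ1, ⟨κ, hκ⟩, hbig⟩ := hi
  refine ⟨hiJ, x, fun _ => x, hx, fun _ => hx, ?_⟩
  by_contra hno
  push Not at hno
  have hx0 : 0 < x := by
    rcases Nat.eq_zero_or_pos x with h | h
    · rw [h] at hx
      simp at hx
      omega
    · exact h
  set W : ℤ → ℝ := fun n => ∏ i ∈ E, lamA (a i * n + b i) with hW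
  have hW1 : ∀ y, |W y| ≤ 1 := by
    intro y
    rw [hW]
    simp only
    rw [Finset.abs_prod]
    refine Finset.prod_le_one (fun _ _ => abs_nonneg _) fun j _ => ?_
    unfold lamA
    rw [abs_pow]
    simp
  -- the functions
  set f : (Fin K → Fin L) → Fin K → ℤ → ℝ := fun A j v => if κ v = A j then 1 else 0 with hf
  have hf1 : ∀ A j v, |f A j v| ≤ 1 := by
    intro A j v
    rw [hf]
    beta_reduce
    split_ifs <;> simp
  set cA : (Fin K → Fin L) → ℂ := fun A => if h : ∃ p : ℤ × ℤ, 1 ≤ p.1 ∧ 1 ≤ p.2 ∧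
    ∀ j : Fin K, κ (p.1 + (((j : ℕ) + 1 : ℕ) : ℤ) * p.2) = A j then Φ h.choose.1 else 0 with hcA
  have hcA1 : ∀ A, ‖cA A‖ ≤ 1 := by
    intro A
    rw [hcA]
    beta_reduce
    split_ifs
    · exact hΦ1 _
    · simp
  have happ : ∀ n h : ℤ, 1 ≤ n → 1 ≤ h → ‖Φ n - ∑ A : Fin K → Fin L, cA A *
      ((∏ j, f A j (n + (((j : ℕ) + 1 : ℕ) : ℤ) * h) : ℝ) : ℂ)‖ ≤ ε / 2 := by
    intro n h hn hh
    set A₀ : Fin K → Fin L := fun j => κ (n + (((j : ℕ) + 1 : ℕ) : ℤ) * h) with hA₀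
    have h1 : ∑ A : Fin K → Fin L, cA A *
      ((∏ j, f A j (n + (((j : ℕ) + 1 : ℕ) : ℤ) * h) : ℝ) : ℂ) = cA A₀ := by
      rw [Finset.sum_eq_single A₀]
      · have h2 : ∏ j, f A₀ j (n + (((j : ℕ) + 1 : ℕ) : ℤ) * h) = 1 := by
          refine prod_eq_one fun j _ => ?_
          rw [hf]
          beta_reduce
          rw [if_pos rfl]
        rw [h2]
        simp
      · intro A _ hA
        have h2 : ∏ j, f A j (n + (((j : ℕ) + 1 : ℕ) : ℤ) * h) = 0 := by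
          obtain ⟨j, hj⟩ := Function.ne_iff.1 hA
          refine prod_eq_zero (mem_univ j) ?_
          rw [hf]
          beta_reduce
          rw [if_neg (fun h3 => hj h3.symm)]
        rw [h2]
        simp
      · intro h2
        exact absurd (mem_univ _) h2
    rw [h1]
    have h3 : ∃ p : ℤ × ℤ, 1 ≤ p.1 ∧ 1 ≤ p.2 ∧
        ∀ j : Fin K, κ (p.1 + (((j : ℕ) + 1 : ℕ) : ℤ) * p.2) = A₀ j := ⟨(n, h), hn, hh, fun j => rfl⟩
    rw [hcA]
    beta_reduce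
    rw [dif_pos h3]
    obtain ⟨p1, p2, p3⟩ := h3.choose_spec
    refine hκ n _ h h3.choose.2 hn p1 hh p2 fun j hj1 hjK => ?_
    have h4 := p3 ⟨j - 1, by omega⟩
    have h5 : ((((⟨j - 1, by omega⟩ : Fin K) : ℕ) + 1 : ℕ) : ℤ) = j := by
      simp only
      omega
    rw [h5] at h4
    rw [h4, hA₀]
    beta_reduce
    rw [h5]
  have hSL : ∀ A : Fin K → Fin L, SL (fun j : Fin 0 => (Fin.elim0 j : Fin (1 + 1) → ℤ))
      (fun j => Fin.elim0 j) (pj K) (f A) x (fun _ => x)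
      (fun y => ∏ i ∈ E, lamA (ip (φ i) y + b i)) ≤ ε' * (x * ∏ _j : Fin 1, (x : ℝ)) :=
    fun A => hno (f A) (hf1 A)
  have hkey : ∀ m ∈ Fintype.piFinset (fun _ : Fin 1 => Icc (1 : ℤ) x),
      ‖∑ n ∈ Icc (1 : ℤ) x, ((W n : ℝ) : ℂ) * Φ n‖ ≤ ε / 2 * x + ∑ A : Fin K → Fin L,
      |∑ n ∈ Icc (1 : ℤ) x, (∏ j : Fin 0, ArithmeticFunction.vonMangoldt
        (ip ((fun j : Fin 0 => (Fin.elim0 j : Fin (1 + 1) → ℤ)) j)
          (Fin.cons n m : Fin (1 + 1) → ℤ) + (fun j : Fin 0 => (Fin.elim0 j : ℤ)) j).natAbs) *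
        (∏ j, f A j (ip (pj K j) (Fin.cons n m : Fin (1 + 1) → ℤ))) *
        (fun y => ∏ i ∈ E, lamA (ip (φ i) y + b i)) (Fin.cons n m : Fin (1 + 1) → ℤ)| := by
    intro m hm
    rw [Fintype.mem_piFinset] at hm
    have hm0 := (Finset.mem_Icc.1 (hm 0)).1
    set Ψ : ℤ → ℂ := fun n => ∑ A : Fin K → Fin L, cA A *
      ((∏ j, f A j (n + (((j : ℕ) + 1 : ℕ) : ℤ) * m 0) : ℝ) : ℂ) with hΨ
    have h1 : ‖∑ n ∈ Icc (1 : ℤ) x, ((W n : ℝ) : ℂ) * Φ n - ∑ n ∈ Icc (1 : ℤ) x, ((W n : ℝ) : ℂ) * Ψ n‖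
        ≤ ε / 2 * x := by
      rw [← Finset.sum_sub_distrib]
      refine (norm_sum_le _ _).trans ?_
      have h4 : ∀ n ∈ Icc (1 : ℤ) x, ‖((W n : ℝ) : ℂ) * Φ n - ((W n : ℝ) : ℂ) * Ψ n‖ ≤ ε / 2 := by
        intro n hn
        rw [← mul_sub, norm_mul, Complex.norm_real, Real.norm_eq_abs]
        calc _ ≤ (1 : ℝ) * (ε / 2) := mul_le_mul (hW1 n)
              (happ n (m 0) (Finset.mem_Icc.1 hn).1 hm0) (norm_nonneg _) zero_le_one
          _ = _ := one_mul _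
      refine (Finset.sum_le_sum h4).trans ?_
      rw [Finset.sum_const, Int.card_Icc, nsmul_eq_mul]
      have h6 : ((x : ℤ) + 1 - 1).toNat = x := by omega
      rw [h6, mul_comm]
    have h2 : ∑ n ∈ Icc (1 : ℤ) x, ((W n : ℝ) : ℂ) * Ψ n = ∑ A : Fin K → Fin L,
        cA A * ((∑ n ∈ Icc (1 : ℤ) x, (∏ j : Fin 0, ArithmeticFunction.vonMangoldt
        (ip ((fun j : Fin 0 => (Fin.elim0 j : Fin (1 + 1) → ℤ)) j)
          (Fin.cons n m : Fin (1 + 1) → ℤ) + (fun j : Fin 0 => (Fin.elim0 j : ℤ)) j).natAbs) *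
        (∏ j, f A j (ip (pj K j) (Fin.cons n m : Fin (1 + 1) → ℤ))) *
        (fun y => ∏ i ∈ E, lamA (ip (φ i) y + b i)) (Fin.cons n m : Fin (1 + 1) → ℤ) : ℝ) : ℂ) := by
      rw [hΨ]
      simp_rw [Complex.ofReal_sum, Finset.mul_sum]
      rw [Finset.sum_comm]
      refine sum_congr rfl fun A _ => sum_congr rfl fun n _ => ?_
      have h3 : ∀ i, ip (φ i) (Fin.cons n m : Fin (1 + 1) → ℤ) = a i * n := fun i => ip_cons a i n m
      simp only [h3, Finset.univ_eq_empty, Finset.prod_empty, one_mul, ip_pj]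
      rw [Complex.ofReal_mul]
      rw [hW]
      ring
    have h3 : ‖∑ n ∈ Icc (1 : ℤ) x, ((W n : ℝ) : ℂ) * Ψ n‖ ≤ ∑ A : Fin K → Fin L,
        |∑ n ∈ Icc (1 : ℤ) x, (∏ j : Fin 0, ArithmeticFunction.vonMangoldt
        (ip ((fun j : Fin 0 => (Fin.elim0 j : Fin (1 + 1) → ℤ)) j)
          (Fin.cons n m : Fin (1 + 1) → ℤ) + (fun j : Fin 0 => (Fin.elim0 j : ℤ)) j).natAbs) *
        (∏ j, f A j (ip (pj K j) (Fin.cons n m : Fin (1 + 1) → ℤ))) *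
        (fun y => ∏ i ∈ E, lamA (ip (φ i) y + b i)) (Fin.cons n m : Fin (1 + 1) → ℤ)| := by
      rw [h2]
      refine (norm_sum_le _ _).trans (sum_le_sum fun A _ => ?_)
      rw [norm_mul, Complex.norm_real, Real.norm_eq_abs]
      calc _ ≤ (1 : ℝ) * _ := mul_le_mul_of_nonneg_right (hcA1 A) (abs_nonneg _)
        _ = _ := one_mul _
    have h4 := norm_add_le (∑ n ∈ Icc (1 : ℤ) x, ((W n : ℝ) : ℂ) * Φ n -
      ∑ n ∈ Icc (1 : ℤ) x, ((W n : ℝ) : ℂ) * Ψ n) (∑ n ∈ Icc (1 : ℤ) x, ((W n : ℝ) : ℂ) * Ψ n)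
    rw [sub_add_cancel] at h4
    exact h4.trans (add_le_add h1 h3)
  have hsum := Finset.sum_le_sum hkey
  rw [Finset.sum_const, Finset.sum_add_distrib, Finset.sum_const, Finset.sum_comm,
    Fintype.card_piFinset_const, Int.card_Icc, nsmul_eq_mul, nsmul_eq_mul] at hsum
  have h5 := hsum.trans (add_le_add_right (Finset.sum_le_sum
    fun A (_ : A ∈ (Finset.univ : Finset (Fin K → Fin L))) => hSL A) _)
  have h6 : ((((((x : ℤ) + 1 - 1).toNat) ^ 1 : ℕ)) : ℝ) = (x : ℝ) := by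
    have : ((x : ℤ) + 1 - 1).toNat = x := by omega
    rw [this]
    push_cast
    ring
  rw [h6, Finset.sum_const, Finset.card_univ, nsmul_eq_mul, Finset.prod_const, Finset.card_univ,
    Fintype.card_fin, pow_one] at h5
  have hxr : (0 : ℝ) < (x : ℝ) := by exact_mod_cast hx0
  have h8 : (Fintype.card (Fin K → Fin L) : ℝ) * ε' ≤ ε / 2 := by
    rw [hε']
    have hc0 : (0 : ℝ) ≤ (Fintype.card (Fin K → Fin L) : ℝ) := Nat.cast_nonneg _
    rw [← mul_div_assoc, div_le_div_iff₀ (by positivity) (by norm_num)]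
    nlinarith
  have h9 : (Fintype.card (Fin K → Fin L) : ℝ) * (ε' * (x * x)) ≤ ε / 2 * (x * x) := by
    calc _ = ((Fintype.card (Fin K → Fin L) : ℝ) * ε') * (x * x) := by ring
      _ ≤ _ := mul_le_mul_of_nonneg_right h8 (by positivity)
  have h10 := mul_lt_mul_of_pos_left hbig hxr
  nlinarith

end Pool.Agent.N788.NL
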