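import Mathlib
import Pool.Agent.N788.NL.CL2

/-! Nilsequences are determined by the other points of progressions. -/

namespace Pool.Agent.N788.NL

open Finset Polynomial Filter Topology
open Pool.Agent.N318.LS

lemma uni_of_ev {m : ℕ} {Q : Matrix (Fin m) (Fin m) ℝ[X]} (h : ∀ t : ℕ, Uni (ev Q t)) : Uni Q := by
  have key : ∀ (P P' : ℝ[X]), (∀ t : ℕ, P.eval (t : ℝ) = P'.eval (t : ℝ)) → P = P' := by
    intro P P' hP
    refine Polynomial.eq_of_infinite_eval_eq P P' ?_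
    refine Set.Infinite.mono (s := Set.range (fun t : ℕ => (t : ℝ))) ?_ ?_
    · rintro _ ⟨t, rfl⟩
      exact hP t
    · exact Set.infinite_range_of_injective Nat.cast_injective
  constructor
  · intro i
    refine key _ _ fun t => ?_
    rw [eval_one]
    exact (h t).1 i
  · intro i j hij
    refine key _ _ fun t => ?_
    rw [eval_zero]
    exact (h t).2 i j hij

lemma red_one {m : ℕ} (A : Matrix (Fin m) (Fin m) ℝ) : ∃ g : Matrix (Fin m) (Fin m) ℤ, Uni g ∧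
    (Uni A → ∀ i j, 0 ≤ (A * rl g) i j ∧ (A * rl g) i j ≤ 1) := by
  by_cases hA : Uni A
  · obtain ⟨g, h1, _, h2⟩ := reduceR (B := 1 + ∑ i, ∑ j, |A i j|)
      (le_add_of_nonneg_right (sum_nonneg fun _ _ => sum_nonneg fun _ _ => abs_nonneg _)) hA (by
        intro i j
        have h3 : |A i j| ≤ ∑ j, |A i j| :=
          single_le_sum (f := fun j => |A i j|) (fun _ _ => abs_nonneg _) (mem_univ j)
        have h4 : ∑ j, |A i j| ≤ ∑ i, ∑ j, |A i j| :=
          single_le_sum (f := fun i => ∑ j, |A i j|) (fun _ _ => sum_nonneg fun _ _ => abs_nonneg _)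
            (mem_univ i)
        linarith)
    exact ⟨g, h1, fun _ => h2⟩
  · refine ⟨1, ⟨fun i => Matrix.one_apply_eq i, fun i j hij => Matrix.one_apply_ne (ne_of_gt hij)⟩,
      fun h => absurd h hA⟩

/-- the colour of a matrix -/
noncomputable def colr {m : ℕ} (M : ℕ) (A : Matrix (Fin m) (Fin m) ℝ) : Fin m → Fin m → Fin (M + 2) :=
  fun i j => ⟨min ⌊((M : ℝ) + 1) * A i j⌋₊ (M + 1), by omega⟩

lemma colr_close {m M : ℕ} {A B : Matrix (Fin m) (Fin m) ℝ} (hA : ∀ i j, 0 ≤ A i j ∧ A i j ≤ 1)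
    (hB : ∀ i j, 0 ≤ B i j ∧ B i j ≤ 1) (h : colr M A = colr M B) (i j : Fin m) :
    |A i j - B i j| ≤ 1 / ((M : ℝ) + 1) := by
  have hM : (0 : ℝ) < (M : ℝ) + 1 := by positivity
  have key : ∀ {a : ℝ}, 0 ≤ a → a ≤ 1 → ⌊((M : ℝ) + 1) * a⌋₊ ≤ M + 1 := by
    intro a h0 h1
    have : ((M : ℝ) + 1) * a ≤ ((M + 1 : ℕ) : ℝ) := by
      push_cast
      nlinarith
    exact Nat.floor_le_of_le this
  have h1 := congrArg Fin.val (congrFun (congrFun h i) j)
  unfold colr at h1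
  simp only at h1
  rw [min_eq_left (key (hA i j).1 (hA i j).2), min_eq_left (key (hB i j).1 (hB i j).2)] at h1
  have a1 := Nat.floor_le (mul_nonneg hM.le (hA i j).1)
  have a2 := Nat.lt_floor_add_one (((M : ℝ) + 1) * A i j)
  have b1 := Nat.floor_le (mul_nonneg hM.le (hB i j).1)
  have b2 := Nat.lt_floor_add_one (((M : ℝ) + 1) * B i j)
  rw [h1] at a1 a2
  rw [le_div_iff₀ hM, ← abs_of_pos hM, ← abs_mul, abs_le]
  constructor <;> nlinarith

/-- the polynomial sequence `t ↦ Q (n + h t)` -/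
noncomputable def shf {m : ℕ} (Q : Matrix (Fin m) (Fin m) ℝ[X]) (n h : ℕ) : Matrix (Fin m) (Fin m) ℝ[X] :=
  fun i j => (Q i j).comp (C (n : ℝ) + C (h : ℝ) * X)

lemma ev_shf {m : ℕ} (Q : Matrix (Fin m) (Fin m) ℝ[X]) (n h t : ℕ) :
    ev (shf Q n h) t = ev Q (n + h * t) := by
  ext i j
  unfold ev shf
  rw [eval_comp, eval_add, eval_mul, eval_C, eval_C, eval_X]
  push_cast
  rfl

lemma shf_deg {m D : ℕ} {Q : Matrix (Fin m) (Fin m) ℝ[X]} (hQ : ∀ i j, (Q i j).natDegree ≤ D)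
    (n h : ℕ) (i j : Fin m) : (shf Q n h i j).natDegree ≤ D := by
  unfold shf
  refine natDegree_comp_le.trans ?_
  have h1 : (C (n : ℝ) + C (h : ℝ) * X : ℝ[X]).natDegree ≤ 1 := by
    refine (natDegree_add_le _ _).trans (max_le (by simp) ?_)
    exact (natDegree_C_mul_le _ _).trans natDegree_X_le
  calc _ ≤ D * 1 := Nat.mul_le_mul (hQ i j) h1
    _ = D := mul_one D

theorem nil_det {m : ℕ} {G : Set (Matrix (Fin m) (Fin m) ℝ)} (hG : Nilm G)
    {F : Matrix (Fin m) (Fin m) ℝ → ℂ} (hF : ContinuousOn F G)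
    (hFi : ∀ A ∈ G, ∀ g : Matrix (Fin m) (Fin m) ℤ, rl g ∈ G → F (A * rl g) = F A) (D : ℕ)
    {δ : ℝ} (hδ : 0 < δ) : ∃ (K M : ℕ), ∀ Q : Matrix (Fin m) (Fin m) ℝ[X],
      (∀ t : ℕ, ev Q t ∈ G) → (∀ i j, (Q i j).natDegree ≤ D) →
      ∃ κ : ℕ → (Fin m → Fin m → Fin (M + 2)), ∀ n n' h h' : ℕ,
        (∀ j : ℕ, 1 ≤ j → j ≤ K → κ (n + h * j) = κ (n' + h' * j)) →
        ‖F (ev Q n) - F (ev Q n')‖ ≤ δ := by
  obtain ⟨η, hη, hmod⟩ := modulus hG hF hFi hδ
  obtain ⟨M, hM⟩ := cl m D η hη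
  refine ⟨KK m D, M, fun Q hQG hQd => ?_⟩
  choose H hH hHr using fun t : ℕ => red_one (ev Q t)
  refine ⟨fun t => colr M (ev Q t * rl (H t)), fun n n' h h' hκ => ?_⟩
  have hU : ∀ n h : ℕ, Uni (shf Q n h) := by
    intro n h
    refine uni_of_ev fun t => ?_
    rw [ev_shf]
    exact hG.uni _ (hQG _)
  have hr : ∀ t i j, 0 ≤ (ev Q t * rl (H t)) i j ∧ (ev Q t * rl (H t)) i j ≤ 1 :=
    fun t => hHr t (hG.uni _ (hQG t))
  obtain ⟨g, g', hg, hg', hb, hc⟩ := hM (shf Q n h) (shf Q n' h') (hU n h) (hU n' h')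
    (shf_deg hQd n h) (shf_deg hQd n' h') (fun t => H (n + h * t)) (fun t => H (n' + h' * t))
    (fun t => hH _) (fun t => hH _)
    (fun t i j => by
      rw [ev_shf]
      have := hr (n + h * t) i j
      rw [abs_le]
      constructor <;> linarith)
    (fun t i j => by
      rw [ev_shf]
      have := hr (n' + h' * t) i j
      rw [abs_le]
      constructor <;> linarith)
    (fun t h1 h2 i j => by
      rw [ev_shf, ev_shf]
      exact colr_close (hr _) (hr _) (hκ t h1 h2) i j)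
  rw [ev_shf, ev_shf, mul_zero, mul_zero, add_zero, add_zero] at hc
  rw [ev_shf, mul_zero, add_zero] at hb
  exact hmod _ (hQG n) _ (hQG n') g g' hg hg' hb hc

end Pool.Agent.N788.NL
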