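import Mathlib
import Pool.Agent.N788.NL.GP
import Pool.Agent.N788.NL.ND

/-! Products of values of the Möbius function at fixed shifts against nilsequences. -/

namespace Pool.Agent.N788.NL

open Finset Polynomial Pool.Agent.N675 Pool.Agent.N675.FS Pool.Agent.N675.FM Pool.Agent.N788.PP

theorem gen_det {k : ℕ} (a b : Fin k → ℤ) (ha : ∀ i, a i ≠ 0) (E : Finset (Fin k))
    (hE : Odd E.card ∨ (E.card = 2 ∧ ∃ i ∈ E, ∃ j ∈ E, a i * b j ≠ a j * b i)) (K L R : ℕ) (ε : ℝ)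
    (hε : 0 < ε) :
    ∃ C : ℝ, ∀ J : ℕ, ∃ N₀ : ℕ, ∀ N : ℕ, N₀ ≤ N →
      ∑ i ∈ excS (fun x => ∃ (G : (Fin k → Bool) → ℝ) (Φ : ℤ → ℂ), (∀ c, |G c| ≤ 1) ∧
        (∀ n, ‖Φ n‖ ≤ 1) ∧ Det K (Fin L) (ε / 8) Φ ∧
        ε * x < ‖∑ n ∈ Icc (1 : ℤ) x, (((∏ i ∈ E, lamA (a i * n + b i)) *
          G (fun j => sf (a j * n + b j)) : ℝ) : ℂ) * Φ n‖) R J N,
        1 / (i : ℝ) ≤ C := by
  classical
  have hk1 : (0 : ℝ) < 4 * k + 4 := by positivity
  choose D hD using fun j => rare (a j) (b j) (ha j) R (ε / (4 * k + 4)) (by positivity)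
  choose NT hNT using hD
  set D₀ : ℕ := 2 + ∑ j, D j with hD₀
  have hDle : ∀ j, D j ≤ D₀ := by
    intro j
    have := Finset.single_le_sum (f := D) (fun _ _ => Nat.zero_le _) (Finset.mem_univ j)
    omega
  set Q : ℕ := ∏ d ∈ Icc 2 D₀, d ^ 2 with hQ
  have hQ0 : 0 < Q := Finset.prod_pos fun d hd => by
    have := (Finset.mem_Icc.1 hd).1
    positivity
  have hQd : ∀ d ∈ Icc 2 D₀, d ^ 2 ∣ Q := fun d hd => Finset.dvd_prod_of_mem _ hd
  haveI : NeZero Q := ⟨hQ0.ne'⟩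
  obtain ⟨C, hC⟩ := lam_det a b ha E hE (K + 2) (Fintype.card (Fin L × ZMod Q)) R (ε / 4)
    (by positivity)
  refine ⟨C, fun J => ?_⟩
  obtain ⟨N₁, hN₁⟩ := hC J
  refine ⟨N₁ + ∑ i ∈ Icc 1 J, ∑ j, NT j i, fun N hN => (Finset.sum_le_sum_of_subset_of_nonneg ?_
    fun _ _ _ => by positivity).trans (hN₁ N (by omega))⟩
  intro i hi
  unfold excS at hi ⊢
  rw [Finset.mem_filter] at hi ⊢
  obtain ⟨hiJ, x, hx, G, Φ, hG, hΦ1, ⟨κ, hκ⟩, hbig⟩ := hi
  refine ⟨hiJ, x, hx, fun n => ((G (fun j => sq D₀ (a j * n + b j)) : ℝ) : ℂ) * Φ n, ?_, ?_, ?_⟩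
  · intro n
    rw [norm_mul, Complex.norm_real, Real.norm_eq_abs]
    exact mul_le_one₀ (hG _) (norm_nonneg _) (hΦ1 n)
  · refine ⟨fun v => Fintype.equivFin (Fin L × ZMod Q) (κ v, (v : ZMod Q)), ?_⟩
    intro n n' h h' hn hn' hh hh' hcol
    have hcol' : ∀ j : ℕ, 1 ≤ j → j ≤ K + 2 → κ (n + j * h) = κ (n' + j * h') ∧
        (((n + j * h : ℤ)) : ZMod Q) = ((n' + j * h' : ℤ) : ZMod Q) := by
      intro j h1 h2
      have h3 := (Fintype.equivFin (Fin L × ZMod Q)).injective (hcol j h1 h2)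
      exact Prod.ext_iff.1 h3
    have h1 := hκ n n' h h' hn hn' hh hh' (fun j h1 h2 => (hcol' j h1 (by omega)).1)
    have h2 : (Q : ℤ) ∣ n - n' := by
      have e1 := (hcol' 1 le_rfl (by omega)).2
      have e2 := (hcol' 2 (by norm_num) (by omega)).2
      have e3 : ((n' : ℤ) : ZMod Q) = ((n : ℤ) : ZMod Q) := by
        push_cast at e1 e2 ⊢
        linear_combination (-2) * e1 + e2
      exact (ZMod.intCast_eq_intCast_iff_dvd_sub _ _ _).1 e3
    have h3 : (fun j => sq D₀ (a j * n + b j)) = fun j => sq D₀ (a j * n' + b j) := by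
      funext j
      apply sq_mod hQd
      have : a j * n + b j - (a j * n' + b j) = a j * (n - n') := by ring
      rw [this]
      exact dvd_mul_of_dvd_right h2 _
    simp only [h3]
    rw [← mul_sub, norm_mul, Complex.norm_real, Real.norm_eq_abs]
    calc _ ≤ (1 : ℝ) * (ε / 8) := mul_le_mul (hG _) h1 (norm_nonneg _) zero_le_one
      _ = ε / 4 / 2 := by ring
  by_contra hno
  push Not at hno
  have hNTi : ∀ j, NT j i ≤ N := by
    intro j
    have h1 := Finset.single_le_sum (f := fun j => NT j i) (fun _ _ => Nat.zero_le _)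
      (Finset.mem_univ j)
    have h2 := Finset.single_le_sum (f := fun i => ∑ j, NT j i)
      (fun _ _ => Nat.zero_le _) hiJ
    omega
  have hx0 : (0 : ℝ) ≤ x := Nat.cast_nonneg x
  set W : ℤ → ℝ := fun n => ∏ i ∈ E, lamA (a i * n + b i) with hW
  have hW1 : ∀ y, |W y| ≤ 1 := by
    intro y
    rw [hW]
    simp only
    rw [Finset.abs_prod]
    refine Finset.prod_le_one (fun _ _ => abs_nonneg _) fun j _ => ?_
    unfold lamA
    rw [abs_pow]
    simp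
  set V : ℂ := ∑ n ∈ Icc (1 : ℤ) x, ((W n * G (fun j => sf (a j * n + b j)) : ℝ) : ℂ) * Φ n with hV
  set U : ℂ := ∑ n ∈ Icc (1 : ℤ) x, ((W n * G (fun j => sq D₀ (a j * n + b j)) : ℝ) : ℂ) * Φ n with hU
  -- the truncation
  have h1 : ‖V - U‖ ≤ ε / 2 * x := by
    rw [hV, hU, ← Finset.sum_sub_distrib]
    refine (norm_sum_le _ _).trans ?_
    have h2 : ∀ n ∈ Icc (1 : ℤ) x, ‖((W n * G (fun j => sf (a j * n + b j)) : ℝ) : ℂ) *
        Φ n - ((W n * G (fun j => sq D₀ (a j * n + b j)) : ℝ) : ℂ) * Φ n‖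
        ≤ ∑ j, (if (∃ d : ℕ, D j < d ∧ a j * n + b j ≠ 0 ∧
          ((d : ℤ) ^ 2 ∣ a j * n + b j)) then (2 : ℝ) else 0) := by
      intro n _
      by_cases h3 : ∀ j, sf (a j * n + b j) = sq D₀ (a j * n + b j)
      · have h4 : (fun j => sf (a j * n + b j)) = fun j => sq D₀ (a j * n + b j) :=
          funext h3
        rw [h4, sub_self, norm_zero]
        refine Finset.sum_nonneg fun j _ => ?_
        split_ifs <;> norm_num
      · push Not at h3
        obtain ⟨j, hj⟩ := h3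
        obtain ⟨d, hd1, hd2, hd3⟩ := sf_ne_sq (by omega) hj
        have h5 : ‖((W n * G (fun j => sf (a j * n + b j)) : ℝ) : ℂ) *
            Φ n - ((W n * G (fun j => sq D₀ (a j * n + b j)) : ℝ) : ℂ) * Φ n‖ ≤ 2 := by
          rw [← sub_mul, norm_mul, ← Complex.ofReal_sub, Complex.norm_real,
            Real.norm_eq_abs, ← mul_sub, abs_mul]
          have h6 := abs_sub (G (fun j => sf (a j * n + b j)))
            (G (fun j => sq D₀ (a j * n + b j)))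
          have h7 := hG (fun j => sf (a j * n + b j))
          have h8 := hG (fun j => sq D₀ (a j * n + b j))
          have h9 : |W n| * |G (fun j => sf (a j * n + b j)) - G (fun j => sq D₀ (a j * n + b j))| ≤ 2 := by
            calc _ ≤ 1 * 2 := mul_le_mul (hW1 n) (by linarith) (abs_nonneg _) zero_le_one
              _ = 2 := by norm_num
          calc _ ≤ (2 : ℝ) * 1 := mul_le_mul h9 (hΦ1 n) (norm_nonneg _) (by norm_num)
            _ = 2 := by norm_num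
        refine h5.trans ?_
        have h9 := Finset.single_le_sum (f := fun j => if (∃ d : ℕ, D j < d ∧
          a j * n + b j ≠ 0 ∧ ((d : ℤ) ^ 2 ∣ a j * n + b j))
          then (2 : ℝ) else 0) (fun j _ => by split_ifs <;> norm_num) (Finset.mem_univ j)
        refine le_trans (le_of_eq ?_) h9
        rw [if_pos]
        exact ⟨d, lt_of_le_of_lt (hDle j) hd1, hd2, hd3⟩
    refine (Finset.sum_le_sum h2).trans ?_
    rw [Finset.sum_comm]
    have h10 : ∀ j, ∑ n ∈ Icc (1 : ℤ) x, (if (∃ d : ℕ, D j < d ∧ a j * n + b j ≠ 0 ∧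
          ((d : ℤ) ^ 2 ∣ a j * n + b j)) then (2 : ℝ) else 0)
        ≤ 2 * (ε / (4 * k + 4) * x) := by
      intro j
      rw [← Finset.sum_filter, Finset.sum_const, nsmul_eq_mul, mul_comm]
      refine mul_le_mul_of_nonneg_left ?_ (by norm_num)
      exact hNT j i N (hNTi j) x hx.1 hx.2
    refine (Finset.sum_le_sum fun j _ => h10 j).trans ?_
    rw [Finset.sum_const, Finset.card_univ, Fintype.card_fin, nsmul_eq_mul]
    have h11 : (k : ℝ) * (2 * (ε / (4 * k + 4) * x)) = (2 * k / (4 * k + 4)) * (ε * x) := by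
      field_simp
    rw [h11]
    have h12 : (2 * (k : ℝ) / (4 * k + 4)) ≤ 1 / 2 := by
      rw [div_le_div_iff₀ hk1 (by norm_num)]
      have : (0 : ℝ) ≤ k := Nat.cast_nonneg k
      linarith
    have h13 : 0 ≤ ε * x := by positivity
    calc _ ≤ 1 / 2 * (ε * x) := mul_le_mul_of_nonneg_right h12 h13
      _ = _ := by ring
  have h2 : ‖U‖ ≤ ε / 4 * x := by
    refine le_of_eq_of_le ?_ hno
    congr 1
    rw [hU]
    refine sum_congr rfl fun n _ => ?_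
    rw [Complex.ofReal_mul]
    ring
  have h4 : V = (V - U) + U := by ring
  have h5 := norm_add_le (V - U) U
  rw [← h4] at h5
  have h6 : 0 ≤ ε * x := by positivity
  linarith

theorem mu_det {k : ℕ} (a b : Fin k → ℤ) (ha : ∀ i, a i ≠ 0) (c : Fin k → ℕ)
    (E : Finset (Fin k)) (hEc : ∀ i, i ∈ E ↔ Odd (c i))
    (hE : Odd E.card ∨ (E.card = 2 ∧ ∃ i ∈ E, ∃ j ∈ E, a i * b j ≠ a j * b i)) (K L R : ℕ) (ε : ℝ)
    (hε : 0 < ε) :
    ∃ C : ℝ, ∀ J : ℕ, ∃ N₀ : ℕ, ∀ N : ℕ, N₀ ≤ N →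
      ∑ i ∈ excS (fun x => ∃ Φ : ℤ → ℂ, (∀ n, ‖Φ n‖ ≤ 1) ∧ Det K (Fin L) (ε / 8) Φ ∧
        ε * x < ‖∑ n ∈ Icc (1 : ℤ) x, (wt a b c n : ℂ) * Φ n‖) R J N,
        1 / (i : ℝ) ≤ C := by
  classical
  have hE' : E = (Finset.univ : Finset (Fin k)).filter (fun i => Odd (c i)) := by
    ext i
    rw [hEc]
    simp
  obtain ⟨C, hC⟩ := gen_det a b ha E hE K L R ε hε
  refine ⟨C, fun J => ?_⟩
  obtain ⟨N₀, hN₀⟩ := hC J
  refine ⟨N₀, fun N hN => (Finset.sum_le_sum_of_subset_of_nonneg ?_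
    fun _ _ _ => by positivity).trans (hN₀ N hN)⟩
  intro i hi
  unfold excS at hi ⊢
  rw [Finset.mem_filter] at hi ⊢
  obtain ⟨hiJ, x, hx, Φ, hΦ, hdet, hbig⟩ := hi
  refine ⟨hiJ, x, hx, fun v => ∏ i, (if c i = 0 ∨ v i = true then (1 : ℝ) else 0), Φ, ?_, hΦ, hdet, ?_⟩
  · intro v
    rw [Finset.abs_prod]
    refine Finset.prod_le_one (fun _ _ => abs_nonneg _) fun i _ => ?_
    split_ifs <;> simp
  · refine lt_of_lt_of_eq hbig ?_
    congr 1
    refine sum_congr rfl fun n _ => ?_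
    rw [wt_eq, hE']

open Pool.Agent.N318.LS (Uni rl Nilm ev box_compact) in
theorem mu_nil {k : ℕ} (a b : Fin k → ℤ) (ha : ∀ i, a i ≠ 0) (c : Fin k → ℕ)
    (E : Finset (Fin k)) (hEc : ∀ i, i ∈ E ↔ Odd (c i))
    (hE : Odd E.card ∨ (E.card = 2 ∧ ∃ i ∈ E, ∃ j ∈ E, a i * b j ≠ a j * b i))
    {m : ℕ} {G : Set (Matrix (Fin m) (Fin m) ℝ)} (hG : Nilm G)
    {F : Matrix (Fin m) (Fin m) ℝ → ℂ} (hF : ContinuousOn F G)
    (hFi : ∀ A ∈ G, ∀ g : Matrix (Fin m) (Fin m) ℤ, rl g ∈ G → F (A * rl g) = F A)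
    (D R : ℕ) (ε : ℝ) (hε : 0 < ε) :
    ∃ C : ℝ, ∀ J : ℕ, ∃ N₀ : ℕ, ∀ N : ℕ, N₀ ≤ N →
      ∑ i ∈ excS (fun x => ∃ Q : Matrix (Fin m) (Fin m) ℝ[X], (∀ t : ℕ, ev Q t ∈ G) ∧
        (∀ i j, (Q i j).natDegree ≤ D) ∧
        ε * x < ‖∑ n ∈ Icc (1 : ℤ) x, (wt a b c n : ℂ) * F (ev Q n.toNat)‖) R J N,
        1 / (i : ℝ) ≤ C := by
  classical
  -- a bound for `F`
  obtain ⟨B, hB⟩ : ∃ B : ℝ, ∀ A ∈ G, ‖F A‖ ≤ B := by
    obtain ⟨R₁, hR₁⟩ := hG.cocompact
    have hcp : IsCompact (G ∩ {A | ∀ i j, |A i j| ≤ R₁}) := (box_compact m R₁).inter_left hG.closed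
    obtain ⟨B, hB⟩ := hcp.exists_bound_of_continuousOn (hF.mono Set.inter_subset_left)
    refine ⟨B, fun A hA => ?_⟩
    obtain ⟨a', ha', g, hg, hAe, hb⟩ := hR₁ A hA
    rw [hAe, hFi a' ha' g hg]
    exact hB a' ⟨ha', hb⟩
  set B' : ℝ := max B 1 with hB'
  have hB'0 : 0 < B' := lt_of_lt_of_le one_pos (le_max_right _ _)
  obtain ⟨K, M, hdet⟩ := nil_det hG hF hFi D (δ := ε / 8) (by positivity)
  obtain ⟨C, hC⟩ := mu_det a b ha c E hEc hE K (Fintype.card (Fin m → Fin m → Fin (M + 2))) R (ε / B')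
    (by positivity)
  refine ⟨C, fun J => ?_⟩
  obtain ⟨N₀, hN₀⟩ := hC J
  refine ⟨N₀, fun N hN => (Finset.sum_le_sum_of_subset_of_nonneg ?_
    fun _ _ _ => by positivity).trans (hN₀ N hN)⟩
  intro i hi
  unfold excS at hi ⊢
  rw [Finset.mem_filter] at hi ⊢
  obtain ⟨hiJ, x, hx, Q, hQG, hQd, hbig⟩ := hi
  refine ⟨hiJ, x, hx, fun n => (1 / (B' : ℂ)) * F (ev Q n.toNat), ?_, ?_, ?_⟩
  · intro n
    rw [norm_mul, norm_div, norm_one, Complex.norm_real, Real.norm_eq_abs, abs_of_pos hB'0,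
      one_div_mul_eq_div, div_le_one hB'0]
    exact (hB _ (hQG _)).trans (le_max_left _ _)
  · obtain ⟨κ, hκ⟩ := hdet Q hQG hQd
    refine ⟨fun v => Fintype.equivFin _ (κ v.toNat), ?_⟩
    intro n n' h h' hn hn' hh hh' hcol
    have h1 := hκ n.toNat n'.toNat h.toNat h'.toNat (fun j h1 h2 => by
      have h3 := (Fintype.equivFin (Fin m → Fin m → Fin (M + 2))).injective (hcol j h1 h2)
      have t1 : ∀ u v : ℤ, 1 ≤ u → 1 ≤ v → (u + (j : ℤ) * v).toNat = u.toNat + v.toNat * j := by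
        intro u v hu hv
        have : ((u.toNat + v.toNat * j : ℕ) : ℤ) = u + j * v := by
          push_cast
          rw [Int.toNat_of_nonneg (by omega), Int.toNat_of_nonneg (by omega)]
          ring
        omega
      rw [t1 n h hn hh, t1 n' h' hn' hh'] at h3
      exact h3)
    rw [← mul_sub, norm_mul, norm_div, norm_one, Complex.norm_real, Real.norm_eq_abs, abs_of_pos hB'0]
    calc _ ≤ 1 / B' * (ε / 8) := mul_le_mul_of_nonneg_left h1 (by positivity)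
      _ = ε / B' / 8 := by ring
  · have h1 : ∑ n ∈ Icc (1 : ℤ) x, (wt a b c n : ℂ) * ((1 / (B' : ℂ)) * F (ev Q n.toNat)) =
        (1 / (B' : ℂ)) * ∑ n ∈ Icc (1 : ℤ) x, (wt a b c n : ℂ) * F (ev Q n.toNat) := by
      rw [Finset.mul_sum]
      refine sum_congr rfl fun n _ => ?_
      ring
    rw [h1, norm_mul, norm_div, norm_one, Complex.norm_real, Real.norm_eq_abs, abs_of_pos hB'0,
      one_div_mul_eq_div, div_mul_eq_mul_div]
    exact div_lt_div_of_pos_right hbig hB'0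

end Pool.Agent.N788.NL
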